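import Pool.Agent.H735Z.Main

set_option autoImplicit false

/-- Wan's linear ramification bound for the L-functions of a `ℤ_p`-tower of curves: each
`L(χ_n, s)` is a polynomial `Λ n`, and the ramification index over `ℚ_p` of the field generated
by its reciprocal roots is at least `c p ^ n` for large `n`. -/
theorem Pool.Agent.Results.MP_30d976_nt.Full.result (p : ℕ) [Fact p.Prime] (k K Ω : Type)
    [Field k] [Finite k] [CharP k p] [Field K] [Field Ω] [Algebra k K] [Algebra K Ω] [Algebra k Ω]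
    [IsScalarTower k K Ω] (F : ℕ → IntermediateField K Ω) (hF : H735Z.IsZpTower p k F)
    (hS : (H735Z.ramLocus k F).Finite) (χ : ∀ n, (F n ≃ₐ[K] F n) →* ℂ_[p]ˣ)
    (hχ : ∀ n, 1 ≤ n → orderOf (χ n) = p ^ n) :
    ∃ Λ : ℕ → Polynomial ℂ_[p],
      (∀ n, 1 ≤ n → (Λ n : PowerSeries ℂ_[p]) = H735Z.lfun (H735Z.ramLocus k F) (χ n)) ∧
      ∃ c : ℝ, 0 < c ∧ ∃ N : ℕ, ∀ n, N ≤ n →
        c ≤ (H735Z.ramIndex (H735Z.rootField ℚ_[p] (Λ n)) : ℝ) / (p : ℝ) ^ n := by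
  obtain ⟨Λ, hΛ⟩ := hF.lpoly _ hS subset_rfl χ hχ
  obtain ⟨m, N, hm, h⟩ := hF.lmain _ hS subset_rfl χ hχ Λ hΛ
  exact ⟨Λ, hΛ, H735Z.linear_of_bound (Fact.out : p.Prime).one_lt hm
    (fun n => H735Z.ramIndex (H735Z.rootField ℚ_[p] (Λ n))) fun n hn => (h n hn).2.1⟩
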